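import Mathlib

set_option autoImplicit false

namespace Pool.Agent.EA7.H91

/-! Pure algebra: over an uncountable field, a commutative algebra of dimension at least four has
too many two-dimensional subspaces containing `1`. -/

section

variable {k A : Type} [Field k] [CommRing A] [Algebra k A]

/-- independence of `1, x, y` in coordinates -/
def Ind3 (k : Type) {A : Type} [Field k] [CommRing A] [Algebra k A] (x y : A) : Prop :=
  ∀ p q r : k, p • (1 : A) + q • x + r • y = 0 → p = 0 ∧ q = 0 ∧ r = 0

/-- independence of `1, x, y, z` in coordinates -/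
def Ind4 (k : Type) {A : Type} [Field k] [CommRing A] [Algebra k A] (x y z : A) : Prop :=
  ∀ p q r s : k, p • (1 : A) + q • x + r • y + s • z = 0 → p = 0 ∧ q = 0 ∧ r = 0 ∧ s = 0

/-- the span of `1, x, y` -/
def InU (k : Type) {A : Type} [Field k] [CommRing A] [Algebra k A] (x y z : A) : Prop :=
  ∃ p q r : k, z = p • (1 : A) + q • x + r • y

lemma InU.add {x y z z' : A} (h : InU k x y z) (h' : InU k x y z') : InU k x y (z + z') := by
  obtain ⟨p, q, r, rfl⟩ := h
  obtain ⟨p', q', r', rfl⟩ := h'
  exact ⟨p + p', q + q', r + r', by simp only [add_smul]; abel⟩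

lemma InU.smul {x y z : A} (c : k) (h : InU k x y z) : InU k x y (c • z) := by
  obtain ⟨p, q, r, rfl⟩ := h
  exact ⟨c * p, c * q, c * r, by simp only [smul_add, mul_smul]⟩

lemma InU.sub {x y z z' : A} (h : InU k x y z) (h' : InU k x y z') : InU k x y (z - z') := by
  have := h.add (h'.smul (-1 : k))
  rwa [neg_one_smul, ← sub_eq_add_neg] at this

lemma InU.of_smul {x y z : A} {c : k} (hc : c ≠ 0) (h : InU k x y (c • z)) : InU k x y z := by
  have := h.smul c⁻¹
  rwa [smul_smul, inv_mul_cancel₀ hc, one_smul] at this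

lemma three_in_fibre (hk : ¬ Countable k) (N : k → ℕ) :
    ∃ t₀ t₁ t₂ : k, t₀ ≠ t₁ ∧ t₀ ≠ t₂ ∧ t₁ ≠ t₂ ∧ N t₀ = N t₁ ∧ N t₀ = N t₂ ∧ N t₁ = N t₂ := by
  by_cases h : ∃ m, (N ⁻¹' {m}).Infinite
  · obtain ⟨m, hm⟩ := h
    let e := hm.natEmbedding
    have hN : ∀ i, N (e i) = m := fun i => (e i).2
    have hne : ∀ i j, i ≠ j → (e i : k) ≠ e j := by
      intro i j hij h
      exact hij (e.injective (Subtype.ext h))
    refine ⟨e 0, e 1, e 2, hne _ _ (by norm_num), hne _ _ (by norm_num), hne _ _ (by norm_num),
      ?_, ?_, ?_⟩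
    · rw [hN, hN]
    · rw [hN, hN]
    · rw [hN, hN]
  · exfalso
    push Not at h
    apply hk
    have hu : (Set.univ : Set k) = ⋃ m, N ⁻¹' {m} := by
      ext t
      simp
    have hc : (Set.univ : Set k).Countable := by
      rw [hu]
      exact Set.countable_iUnion fun m => (h m).countable
    exact Set.countable_univ_iff.mp hc

/-- the relation coming from isomorphisms -/
def Rel (k : Type) {A : Type} [Field k] [CommRing A] [Algebra k A] (a b : A) : Prop :=
  ∃ c : A, IsUnit c ∧ (∃ p q : k, c = p • (1 : A) + q • b) ∧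
    (∃ p q : k, c * a = p • (1 : A) + q • b)

lemma prod_in {x y : A} (hi : Ind3 k x y) {t s : k} (hts : t ≠ s)
    (hr : Rel k (x + t • y) (x + s • y)) : InU k x y ((x + t • y) * (x + s • y)) := by
  have hnt : (1 : A) ≠ 0 := by
    intro h
    have := hi 1 0 0 (by rw [h]; simp)
    exact one_ne_zero this.1
  obtain ⟨c, hc, ⟨p, q, h1⟩, ⟨p', q', h2⟩⟩ := hr
  have hq : q ≠ 0 := by
    rintro rfl
    have h3 : p • (x + t • y) = p' • (1 : A) + q' • (x + s • y) := by
      rw [← h2, h1]
      simp
    have h4 := hi (-p') (p - q') (p * t - q' * s) (by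
      have : (-p') • (1 : A) + (p - q') • x + (p * t - q' * s) • y
          = p • (x + t • y) - (p' • (1 : A) + q' • (x + s • y)) := by
        simp only [neg_smul, sub_smul, mul_smul, smul_add]
        abel
      rw [this, h3, sub_self])
    have h5 : p = q' := sub_eq_zero.mp h4.2.1
    have h6 : p * (t - s) = 0 := by
      have := h4.2.2
      rw [← h5] at this
      rw [mul_sub]; exact this
    rcases mul_eq_zero.mp h6 with h7 | h7
    · have : c = 0 := by rw [h1, h7]; simp
      rw [this] at hc
      have := isUnit_zero_iff.mp hc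
      exact hnt this.symm
    · exact hts (sub_eq_zero.mp h7)
  have h8 : q • ((x + t • y) * (x + s • y))
      = p' • (1 : A) + (q' - p) • x + (q' * s - p * t) • y := by
    have h9 : c * (x + t • y) = p • (x + t • y) + q • ((x + t • y) * (x + s • y)) := by
      rw [h1, add_mul, smul_mul_assoc, one_mul, smul_mul_assoc, mul_comm (x + s • y)]
    have h10 : q • ((x + t • y) * (x + s • y)) = c * (x + t • y) - p • (x + t • y) := by
      rw [h9]; abel
    rw [h10, h2]
    simp only [sub_smul, mul_smul, smul_add]
    abel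
  exact InU.of_smul hq ⟨_, _, _, h8⟩

/-- `span (1, x, y)` is closed under multiplication -/
lemma closed (hk : ¬ Countable k) (n : A → ℕ) (hn : ∀ a b, n a = n b → Rel k a b)
    {x y : A} (hi : Ind3 k x y) : InU k x y (x * x) := by
  obtain ⟨t₀, t₁, t₂, h01, h02, h12, e01, e02, e12⟩ :=
    three_in_fibre hk (fun t => n (x + t • y))
  have p01 := prod_in hi h01 (hn _ _ e01)
  have p02 := prod_in hi h02 (hn _ _ e02)
  have p12 := prod_in hi h12 (hn _ _ e12)
  -- expansions
  have ex : ∀ t s : k, (x + t • y) * (x + s • y) = x * x + (t + s) • (x * y) + (t * s) • (y * y) := by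
    intro t s
    simp only [Algebra.smul_def, map_add, map_mul]
    ring
  rw [ex] at p01 p02 p12
  have a0 : InU k x y (x * y + t₀ • (y * y)) := by
    have := p01.sub p02
    have h : (t₁ - t₂) • (x * y + t₀ • (y * y)) =
        x * x + (t₀ + t₁) • (x * y) + (t₀ * t₁) • (y * y) -
        (x * x + (t₀ + t₂) • (x * y) + (t₀ * t₂) • (y * y)) := by
      simp only [Algebra.smul_def, map_add, map_mul, map_sub]
      ring
    rw [← h] at this
    exact InU.of_smul (sub_ne_zero.mpr h12) this
  have a1 : InU k x y (x * y + t₁ • (y * y)) := by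
    have := p01.sub p12
    have h : (t₀ - t₂) • (x * y + t₁ • (y * y)) =
        x * x + (t₀ + t₁) • (x * y) + (t₀ * t₁) • (y * y) -
        (x * x + (t₁ + t₂) • (x * y) + (t₁ * t₂) • (y * y)) := by
      simp only [Algebra.smul_def, map_add, map_mul, map_sub]
      ring
    rw [← h] at this
    exact InU.of_smul (sub_ne_zero.mpr h02) this
  have ayy : InU k x y (y * y) := by
    have := a0.sub a1
    have h : (t₀ - t₁) • (y * y) = x * y + t₀ • (y * y) - (x * y + t₁ • (y * y)) := by
      simp only [Algebra.smul_def, map_sub]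
      ring
    rw [← h] at this
    exact InU.of_smul (sub_ne_zero.mpr h01) this
  have axy : InU k x y (x * y) := by
    have := a0.sub (ayy.smul t₀)
    rwa [add_sub_cancel_right] at this
  have := (p01.sub (axy.smul (t₀ + t₁))).sub (ayy.smul (t₀ * t₁))
  have h : x * x + (t₀ + t₁) • (x * y) + (t₀ * t₁) • (y * y) - (t₀ + t₁) • (x * y) -
      (t₀ * t₁) • (y * y) = x * x := by abel
  rwa [h] at this

theorem alg_part (hk : ¬ Countable k) (n : A → ℕ) (hn : ∀ a b, n a = n b → Rel k a b)
    (b1 b2 b3 : A) (hi : Ind4 k b1 b2 b3) : False := by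
  have hnt : (1 : A) ≠ 0 := by
    intro h
    have := hi 1 0 0 0 (by rw [h]; simp)
    exact one_ne_zero this.1
  -- the squares
  have hsq : ∀ t : k, ∃ p q : k, (b1 + t • b2) * (b1 + t • b2) = p • (1 : A) + q • (b1 + t • b2) := by
    intro t
    have i2 : Ind3 k (b1 + t • b2) b2 := by
      intro p q r h
      have := hi p q (q * t + r) 0 (by
        rw [← h]; simp only [smul_add, add_smul, mul_smul, zero_smul]; abel)
      obtain ⟨h1, h2, h3, -⟩ := this
      subst h2
      refine ⟨h1, rfl, by simpa using h3⟩
    have i3 : Ind3 k (b1 + t • b2) b3 := by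
      intro p q r h
      have := hi p q (q * t) r (by
        rw [← h]; simp only [smul_add, mul_smul]; abel)
      exact ⟨this.1, this.2.1, this.2.2.2⟩
    obtain ⟨p, q, r, h⟩ := closed hk n hn i2
    obtain ⟨p', q', r', h'⟩ := closed hk n hn i3
    have := hi (p - p') (q - q') ((q - q') * t + r) (-r') (by
      have e : (p - p') • (1 : A) + (q - q') • b1 + ((q - q') * t + r) • b2 + (-r') • b3
          = (p • (1 : A) + q • (b1 + t • b2) + r • b2) -
            (p' • (1 : A) + q' • (b1 + t • b2) + r' • b3) := by
        simp only [smul_add, add_smul, sub_smul, mul_smul, neg_smul]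
        abel
      rw [e, ← h, ← h', sub_self])
    obtain ⟨-, h2, h3, -⟩ := this
    rw [h2, zero_mul, zero_add] at h3
    exact ⟨p, q, by rw [h, h3, zero_smul, add_zero]⟩
  -- injectivity
  have hinj : Function.Injective (fun t : k => n (b1 + t • b2)) := by
    intro t s hts
    by_contra hne
    obtain ⟨c, hc, ⟨p, q, h1⟩, ⟨p', q', h2⟩⟩ := hn _ _ hts
    obtain ⟨u, v, h3⟩ := hsq s
    set b := b1 + s • b2 with hb
    have ib : ∀ p q : k, p • (1 : A) + q • b = 0 → p = 0 ∧ q = 0 := by
      intro p q h
      have := hi p q (q * s) 0 (by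
        rw [← h, hb]; simp only [smul_add, mul_smul, zero_smul]; abel)
      exact ⟨this.1, this.2.1⟩
    -- multiplication by `c` on `span (1, b)`
    have hcb : c * b = (q * u) • (1 : A) + (p + q * v) • b := by
      rw [h1, add_mul, smul_mul_assoc, one_mul, smul_mul_assoc, h3]
      simp only [smul_add, add_smul, mul_smul]
      abel
    -- determinant
    have hdet : p * (p + q * v) - q * (q * u) ≠ 0 := by
      intro hd
      have e : c * ((p + q * v) • (1 : A) - q • b) = 0 := by
        rw [mul_sub, mul_smul_comm, mul_one, mul_smul_comm, hcb, h1]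
        have : (p + q * v) • (p • (1 : A) + q • b) - q • ((q * u) • (1 : A) + (p + q * v) • b)
            = (p * (p + q * v) - q * (q * u)) • (1 : A) := by
          simp only [Algebra.smul_def, map_add, map_mul, map_sub]
          ring
        rw [this, hd, zero_smul]
      have e2 : (p + q * v) • (1 : A) - q • b = 0 := by
        have := hc.mul_right_eq_zero.mp e
        exact this
      have e3 := ib (p + q * v) (-q) (by rw [neg_smul, ← sub_eq_add_neg]; exact e2)
      have hq : q = 0 := neg_eq_zero.mp e3.2
      have hp : p = 0 := by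
        have := e3.1
        rw [hq] at this
        simpa using this
      have : c = 0 := by rw [h1, hp, hq]; simp
      rw [this] at hc
      exact hnt (isUnit_zero_iff.mp hc).symm
    -- solve `c * z = c * a`
    set Δ := p * (p + q * v) - q * (q * u) with hΔ
    have hz : c * (Δ • (b1 + t • b2) -
        ((p' * (p + q * v) - q' * (q * u)) • (1 : A) + (p * q' - q * p') • b)) = 0 := by
      rw [mul_sub, mul_smul_comm, h2, mul_add, mul_smul_comm, mul_one, mul_smul_comm, hcb, h1, hΔ]
      simp only [Algebra.smul_def, map_add, map_mul, map_sub]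
      ring
    have hz2 := hc.mul_right_eq_zero.mp hz
    have hz3 := hi (-(p' * (p + q * v) - q' * (q * u))) (Δ - (p * q' - q * p'))
      (Δ * t - (p * q' - q * p') * s) 0 (by
        rw [← hz2, hb]
        simp only [neg_smul, sub_smul, mul_smul, smul_add, zero_smul]
        abel)
    obtain ⟨-, h5, h6, -⟩ := hz3
    have h7 : Δ * (t - s) = 0 := by
      have : p * q' - q * p' = Δ := (sub_eq_zero.mp h5).symm
      rw [this] at h6
      rw [mul_sub]; exact h6
    rcases mul_eq_zero.mp h7 with h8 | h8
    · exact hdet h8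
    · exact hne (sub_eq_zero.mp h8)
  exact hk hinj.countable

end

end Pool.Agent.EA7.H91
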