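import Mathlib

set_option autoImplicit false

open IsLocalRing Pointwise

namespace Pool.Agent.EA7.H91

section

variable {R : Type} [CommRing R] [IsNoetherianRing R] [IsLocalRing R]

omit [IsNoetherianRing R] in
lemma pow_eq {w : R} {j : ℕ}
    (hj : maximalIdeal R ^ (j + 1) = Ideal.span {w} * maximalIdeal R ^ j) (i : ℕ) :
    maximalIdeal R ^ (j + i) = Ideal.span {w ^ i} * maximalIdeal R ^ j := by
  induction i with
  | zero => simp
  | succ i ih =>
    rw [← add_assoc, pow_succ, ih, mul_assoc, ← pow_succ, hj, ← mul_assoc,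
      Ideal.span_singleton_mul_span_singleton, ← pow_succ]

lemma mul_mem {w : R} {j : ℕ}
    (hj : maximalIdeal R ^ (j + 1) = Ideal.span {w} * maximalIdeal R ^ j)
    {x y : R} (hx : x ∈ maximalIdeal R ^ j) (hy : y ∈ maximalIdeal R ^ j) :
    ∃ z ∈ maximalIdeal R ^ j, w ^ j * z = x * y := by
  have h : x * y ∈ maximalIdeal R ^ (j + j) := by
    rw [pow_add]; exact Ideal.mul_mem_mul hx hy
  rw [pow_eq hj, Ideal.mem_span_singleton_mul] at h
  exact h

/-- length of `R / w` is at least four -/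
lemma four_le {w : R} (hw : w ∈ maximalIdeal R)
    (hsq : ¬ maximalIdeal R ^ 2 ≤ Ideal.span {w})
    (hgen : ∀ x y : R, maximalIdeal R ≠ Ideal.span {x, y}) :
    4 ≤ Module.length R (R ⧸ Ideal.span {w}) := by
  rw [Module.length_quotient]
  have hm2 : maximalIdeal R ^ 2 ≤ maximalIdeal R := Ideal.pow_le_self (by norm_num)
  have hNak : ∀ N : Ideal R, N ≤ maximalIdeal R → maximalIdeal R ≤ N ⊔ maximalIdeal R ^ 2 →
      maximalIdeal R = N := by
    intro N hN h
    apply le_antisymm _ hN
    refine Submodule.le_of_le_smul_of_le_jacobson_bot (IsNoetherian.noetherian _)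
      (le_of_eq (IsLocalRing.jacobson_eq_maximalIdeal ⊥ bot_ne_top).symm) (?_ : _ ≤ _)
    rwa [smul_eq_mul, ← sq]
  set N0 : Ideal R := Ideal.span {w} with hN0
  have hN0m : N0 ≤ maximalIdeal R := by
    rw [hN0, Ideal.span_le]; simpa using hw
  set N1 : Ideal R := N0 ⊔ maximalIdeal R ^ 2 with hN1
  have h01 : N0 < N1 := by
    apply lt_of_le_of_ne le_sup_left
    intro h
    apply hsq
    rw [h]; exact le_sup_right
  have hN1m : N1 ≤ maximalIdeal R := sup_le hN0m hm2
  obtain ⟨y, hy, hy1⟩ : ∃ y ∈ maximalIdeal R, y ∉ N1 := by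
    by_contra hcon
    push Not at hcon
    have := hNak N0 hN0m (fun x hx => hcon x hx)
    apply hgen w w
    rw [this, hN0]; simp
  set N2 : Ideal R := N1 ⊔ Ideal.span {y} with hN2
  have h12 : N1 < N2 := by
    apply lt_of_le_of_ne le_sup_left
    intro h
    apply hy1
    rw [h]
    exact le_sup_right (a := N1) (Ideal.mem_span_singleton_self y)
  have hN2m : N2 ≤ maximalIdeal R := sup_le hN1m (by rw [Ideal.span_le]; simpa using hy)
  have h23 : N2 < maximalIdeal R := by
    apply lt_of_le_of_ne hN2m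
    intro h
    have hle : Ideal.span {w, y} ≤ maximalIdeal R := by
      rw [Ideal.span_le]
      intro t ht
      rcases ht with rfl | ht
      · exact hw
      · rw [Set.mem_singleton_iff] at ht; rw [ht]; exact hy
    have hle2 : N2 ≤ Ideal.span {w, y} ⊔ maximalIdeal R ^ 2 := by
      rw [hN2, hN1, hN0]
      refine sup_le (sup_le ?_ le_sup_right) ?_
      · exact le_trans (Ideal.span_mono (by intro t ht; left; exact ht)) le_sup_left
      · exact le_trans (Ideal.span_mono (by intro t ht; right; exact ht)) le_sup_left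
    have := hNak (Ideal.span {w, y}) hle (h.symm.le.trans hle2)
    exact hgen w y this
  have h34 : maximalIdeal R < ⊤ := lt_top_iff_ne_top.mpr (Ideal.IsPrime.ne_top inferInstance)
  have c0 := Order.coheight_add_one_le h01
  have c1 := Order.coheight_add_one_le h12
  have c2 := Order.coheight_add_one_le h23
  have c3 := Order.coheight_add_one_le h34
  calc (4 : ℕ∞) = 0 + 1 + 1 + 1 + 1 := by norm_num
    _ ≤ Order.coheight (⊤ : Ideal R) + 1 + 1 + 1 + 1 := by gcongr; exact bot_le
    _ ≤ Order.coheight (maximalIdeal R) + 1 + 1 + 1 := by gcongr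
    _ ≤ Order.coheight N2 + 1 + 1 := by gcongr
    _ ≤ Order.coheight N1 + 1 := by gcongr
    _ ≤ Order.coheight N0 := c0

lemma length_quot_pow_ne_top (j : ℕ) :
    Module.length R (R ⧸ maximalIdeal R ^ j) ≠ ⊤ := by
  rcases Nat.eq_zero_or_pos j with h | h
  · subst h
    have : Subsingleton (R ⧸ maximalIdeal R ^ 0) := by
      rw [pow_zero, Ideal.one_eq_top]
      infer_instance
    rw [Module.length_eq_zero]
    simp
  · have hne : maximalIdeal R ^ j ≠ ⊤ := by
      intro h'
      have := Ideal.pow_le_self (I := maximalIdeal R) h.ne'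
      rw [h'] at this
      exact (Ideal.IsPrime.ne_top inferInstance) (top_le_iff.mp this)
    have : Nontrivial (R ⧸ maximalIdeal R ^ j) := Ideal.Quotient.nontrivial_iff.mpr hne
    have hloc : IsLocalRing (R ⧸ maximalIdeal R ^ j) :=
      IsLocalRing.of_surjective' (Ideal.Quotient.mk _) Ideal.Quotient.mk_surjective
    have hart : IsArtinianRing (R ⧸ maximalIdeal R ^ j) := by
      rw [isArtinianRing_iff_isNilpotent_maximalIdeal]
      refine ⟨j, ?_⟩
      have hmap : maximalIdeal (R ⧸ maximalIdeal R ^ j) =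
          (maximalIdeal R).map (Ideal.Quotient.mk (maximalIdeal R ^ j)) := by
        symm
        apply IsLocalRing.eq_maximalIdeal
        have := Ideal.map_eq_top_or_isMaximal_of_surjective
          (Ideal.Quotient.mk (maximalIdeal R ^ j)) Ideal.Quotient.mk_surjective
          (I := maximalIdeal R) inferInstance
        rcases this with h1 | h1
        · exfalso
          have h2 : maximalIdeal R ^ j ≤ maximalIdeal R := Ideal.pow_le_self h.ne'
          have h3 := congrArg (Ideal.comap (Ideal.Quotient.mk (maximalIdeal R ^ j))) h1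
          rw [Ideal.comap_map_of_surjective _ Ideal.Quotient.mk_surjective, Ideal.comap_top,
            ← RingHom.ker_eq_comap_bot, Ideal.mk_ker, sup_eq_left.mpr h2] at h3
          exact (Ideal.IsPrime.ne_top inferInstance) h3
        · exact h1
      rw [hmap, ← Ideal.map_pow, Ideal.zero_eq_bot, Ideal.map_quotient_self]
    have : IsArtinian R (R ⧸ maximalIdeal R ^ j) :=
      isArtinian_of_surjective_algebraMap (Ideal.Quotient.mk_surjective (I := maximalIdeal R ^ j))
    exact Module.length_ne_top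

/-- length of `M / wM` for `M = m^j` -/
lemma length_MwM {w : R} (hreg : w ∈ nonZeroDivisors R) (j : ℕ) :
    Module.length R (R ⧸ Ideal.span {w}) =
      Module.length R ((maximalIdeal R ^ j : Ideal R) ⧸
        Submodule.comap (maximalIdeal R ^ j : Ideal R).subtype
          (w • (maximalIdeal R ^ j : Ideal R))) := by
  set M : Ideal R := maximalIdeal R ^ j with hM
  have hle : w • M ≤ M := Submodule.smul_le_self_of_tower w M
  have e1 := Module.length_eq_add_of_exact (Ideal.mulQuot w M) (Ideal.quotOfMul w M)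
    (Ideal.mulQuot_injective M hreg) (Ideal.quotOfMul_surjective M)
    (Ideal.exact_mulQuot_quotOfMul M)
  have e2 : Module.length R (R ⧸ w • M) =
      Module.length R (M ⧸ Submodule.comap M.subtype (w • M)) + Module.length R (R ⧸ M) := by
    refine Module.length_eq_add_of_exact
      (Submodule.mapQ (Submodule.comap M.subtype (w • M)) (w • M) M.subtype le_rfl)
      (Submodule.factor hle) ?_ (Submodule.factor_surjective hle) ?_
    · rw [← LinearMap.ker_eq_bot, Submodule.ker_mapQ]
      simp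
    · rw [LinearMap.exact_iff]
      ext x
      obtain ⟨x, rfl⟩ := Submodule.Quotient.mk_surjective _ x
      have hf : Submodule.factor hle (Submodule.Quotient.mk x) = Submodule.Quotient.mk x := rfl
      rw [LinearMap.mem_ker, hf, Submodule.Quotient.mk_eq_zero]
      constructor
      · intro hx
        exact ⟨Submodule.Quotient.mk ⟨x, hx⟩, by rw [Submodule.mapQ_apply]; rfl⟩
      · rintro ⟨y, hy⟩
        obtain ⟨y, rfl⟩ := Submodule.Quotient.mk_surjective _ y
        rw [Submodule.mapQ_apply, Submodule.Quotient.eq] at hy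
        have h1 : (y : R) - x ∈ M := hle hy
        have h2 := M.sub_mem y.2 h1
        rwa [sub_sub_cancel] at h2
  rw [e1] at e2
  have hfin := length_quot_pow_ne_top (R := R) j
  rw [← hM] at hfin
  rw [add_comm] at e2
  exact WithTop.add_right_cancel hfin e2

lemma exists_not_mem {w : R} (hw : w ∈ maximalIdeal R)
    (hreg : w ∈ nonZeroDivisors R) (j : ℕ)
    (hj : maximalIdeal R ^ (j + 1) = Ideal.span {w} * maximalIdeal R ^ j)
    (hsq : ¬ maximalIdeal R ^ 2 ≤ Ideal.span {w})
    (hgen : ∀ x y : R, maximalIdeal R ≠ Ideal.span {x, y})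
    (v : Fin 3 → R) (hv : ∀ i, v i ∈ maximalIdeal R ^ j) :
    ∃ z ∈ maximalIdeal R ^ j, ∀ r : Fin 3 → R, ∀ p ∈ w • (maximalIdeal R ^ j : Ideal R),
      z ≠ ∑ i, r i * v i + p := by
  by_contra hcon
  push Not at hcon
  have h4 := four_le hw hsq hgen
  rw [length_MwM hreg j] at h4
  set M : Ideal R := maximalIdeal R ^ j with hM
  have hmM : ∀ r ∈ maximalIdeal R, ∀ x ∈ M, r * x ∈ w • M := by
    intro r hr x hx
    have h : r * x ∈ maximalIdeal R ^ (j + 1) := by
      rw [pow_succ, mul_comm r x]; exact Ideal.mul_mem_mul hx hr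
    rw [hj, Ideal.mem_span_singleton_mul] at h
    obtain ⟨z, hz, hz2⟩ := h
    rw [← hz2]
    exact Submodule.smul_mem_pointwise_smul z w M hz
  let V := M ⧸ Submodule.comap M.subtype (w • M)
  let q : Fin 3 → V := fun i => Submodule.Quotient.mk ⟨v i, hv i⟩
  have hker : ∀ i, maximalIdeal R ≤ LinearMap.ker (LinearMap.toSpanSingleton R V (q i)) := by
    intro i r hr
    rw [LinearMap.mem_ker, LinearMap.toSpanSingleton_apply, ← Submodule.Quotient.mk_smul,
      Submodule.Quotient.mk_eq_zero, Submodule.mem_comap]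
    exact hmM r hr _ (hv i)
  let φ : (Fin 3 → R ⧸ maximalIdeal R) →ₗ[R] V :=
    ∑ i, (Submodule.liftQ (maximalIdeal R) (LinearMap.toSpanSingleton R V (q i)) (hker i)) ∘ₗ
      LinearMap.proj i
  have hφ : Function.Surjective φ := by
    intro x
    obtain ⟨⟨x, hx⟩, rfl⟩ := Submodule.Quotient.mk_surjective _ x
    obtain ⟨r, p, hp, hxe⟩ := hcon x hx
    refine ⟨fun i => Submodule.Quotient.mk (r i), ?_⟩
    have e1 : φ (fun i => Submodule.Quotient.mk (r i)) = ∑ i, r i • q i := by
      simp only [φ, LinearMap.sum_apply, LinearMap.comp_apply, LinearMap.proj_apply]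
      refine Finset.sum_congr rfl fun i _ => ?_
      rw [Submodule.liftQ_apply, LinearMap.toSpanSingleton_apply]
    rw [e1]
    have e2 : ∑ i, r i • q i = Submodule.Quotient.mk (∑ i, r i • (⟨v i, hv i⟩ : M)) := by
      simp only [q]
      rw [← Submodule.mkQ_apply, map_sum]
      refine Finset.sum_congr rfl fun i _ => ?_
      rw [map_smul, Submodule.mkQ_apply]
    rw [e2, Submodule.Quotient.eq, Submodule.mem_comap, map_sub, map_sum]
    have e3 : ∑ i, M.subtype (r i • (⟨v i, hv i⟩ : M)) - M.subtype ⟨x, hx⟩ = -p := by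
      simp only [Submodule.subtype_apply, Submodule.coe_smul, smul_eq_mul]
      rw [hxe]; ring
    rw [e3]
    exact Submodule.neg_mem _ hp
  have hsimple : IsSimpleModule R (R ⧸ maximalIdeal R) :=
    isSimpleModule_iff_quot_maximal.mpr ⟨maximalIdeal R, inferInstance, ⟨LinearEquiv.refl _ _⟩⟩
  have hlen := Module.length_le_of_surjective φ hφ
  rw [Module.length_pi, Module.length_eq_one R (R ⧸ maximalIdeal R)] at hlen
  have h3 : (4 : ℕ∞) ≤ ENat.card (Fin 3) * 1 := h4.trans hlen
  simp at h3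
  norm_cast at h3

theorem exists_indep {w : R} (hw : w ∈ maximalIdeal R)
    (hreg : w ∈ nonZeroDivisors R) (j : ℕ)
    (hj : maximalIdeal R ^ (j + 1) = Ideal.span {w} * maximalIdeal R ^ j)
    (hsq : ¬ maximalIdeal R ^ 2 ≤ Ideal.span {w})
    (hgen : ∀ x y : R, maximalIdeal R ≠ Ideal.span {x, y}) :
    ∃ z1 ∈ maximalIdeal R ^ j, ∃ z2 ∈ maximalIdeal R ^ j, ∃ z3 ∈ maximalIdeal R ^ j,
      ∀ r0 r1 r2 r3 : R, ∀ y ∈ maximalIdeal R ^ j,
        r0 * w ^ j + r1 * z1 + r2 * z2 + r3 * z3 = w * y →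
        r0 ∈ maximalIdeal R ∧ r1 ∈ maximalIdeal R ∧ r2 ∈ maximalIdeal R ∧
          r3 ∈ maximalIdeal R := by
  have key := exists_not_mem hw hreg j hj hsq hgen
  have hwj : w ^ j ∈ maximalIdeal R ^ j := Ideal.pow_mem_pow hw j
  have hmul : ∀ r ∈ maximalIdeal R, ∀ x ∈ maximalIdeal R ^ j, ∃ y ∈ maximalIdeal R ^ j,
      r * x = w * y := by
    intro r hr x hx
    have h : r * x ∈ maximalIdeal R ^ (j + 1) := by
      rw [pow_succ, mul_comm r x]; exact Ideal.mul_mem_mul hx hr
    rw [hj, Ideal.mem_span_singleton_mul] at h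
    obtain ⟨z, hz, hz2⟩ := h
    exact ⟨z, hz, hz2.symm⟩
  have hunit : ∀ r : R, r ∉ maximalIdeal R → ∃ s : R, s * r = 1 := by
    intro r hr
    have : IsUnit r := by
      by_contra h
      exact hr ((mem_maximalIdeal r).mpr h)
    obtain ⟨u, rfl⟩ := this
    exact ⟨↑u⁻¹, Units.inv_mul u⟩
  obtain ⟨z1, hz1, k1⟩ := key ![w ^ j, w ^ j, w ^ j] (by intro i; fin_cases i <;> exact hwj)
  obtain ⟨z2, hz2, k2⟩ := key ![w ^ j, z1, z1] (by
    intro i; fin_cases i
    · exact hwj
    · exact hz1
    · exact hz1)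
  obtain ⟨z3, hz3, k3⟩ := key ![w ^ j, z1, z2] (by
    intro i; fin_cases i
    · exact hwj
    · exact hz1
    · exact hz2)
  refine ⟨z1, hz1, z2, hz2, z3, hz3, ?_⟩
  intro r0 r1 r2 r3 y hy h
  have hM : ∀ y ∈ maximalIdeal R ^ j, w * y ∈ w • (maximalIdeal R ^ j : Ideal R) :=
    fun y hy => Submodule.smul_mem_pointwise_smul y w _ hy
  have m3 : r3 ∈ maximalIdeal R := by
    by_contra hr
    obtain ⟨s, hs⟩ := hunit r3 hr
    refine k3 ![-(s * r0), -(s * r1), -(s * r2)] (w * (s * y))
      (hM _ (Ideal.mul_mem_left _ _ hy)) ?_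
    rw [Fin.sum_univ_three]
    simp only [Matrix.cons_val_zero, Matrix.cons_val_one, Matrix.cons_val]
    linear_combination s * h - z3 * hs
  obtain ⟨y3, hy3, e3⟩ := hmul r3 m3 z3 hz3
  have m2 : r2 ∈ maximalIdeal R := by
    by_contra hr
    obtain ⟨s, hs⟩ := hunit r2 hr
    refine k2 ![-(s * r0), -(s * r1), 0] (w * (s * (y - y3)))
      (hM _ (Ideal.mul_mem_left _ _ (Ideal.sub_mem _ hy hy3))) ?_
    rw [Fin.sum_univ_three]
    simp only [Matrix.cons_val_zero, Matrix.cons_val_one, Matrix.cons_val]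
    linear_combination s * h - z2 * hs - s * e3
  obtain ⟨y2, hy2, e2⟩ := hmul r2 m2 z2 hz2
  have m1 : r1 ∈ maximalIdeal R := by
    by_contra hr
    obtain ⟨s, hs⟩ := hunit r1 hr
    refine k1 ![-(s * r0), 0, 0] (w * (s * (y - y3 - y2)))
      (hM _ (Ideal.mul_mem_left _ _ (Ideal.sub_mem _ (Ideal.sub_mem _ hy hy3) hy2))) ?_
    rw [Fin.sum_univ_three]
    simp only [Matrix.cons_val_zero, Matrix.cons_val_one, Matrix.cons_val]
    linear_combination s * h - z1 * hs - s * e3 - s * e2
  obtain ⟨y1, hy1, e1⟩ := hmul r1 m1 z1 hz1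
  have m0 : r0 ∈ maximalIdeal R := by
    by_contra hr
    obtain ⟨s, hs⟩ := hunit r0 hr
    -- `w ^ j = w * y'`
    obtain ⟨y', hy', e⟩ : ∃ y' ∈ maximalIdeal R ^ j, w ^ j = w * y' := by
      refine ⟨s * (y - y3 - y2 - y1), Ideal.mul_mem_left _ _
        (Ideal.sub_mem _ (Ideal.sub_mem _ (Ideal.sub_mem _ hy hy3) hy2) hy1), ?_⟩
      linear_combination s * h - w ^ j * hs - s * e3 - s * e2 - s * e1
    -- so `z1 ∈ w M`
    obtain ⟨u, hu, hu2⟩ := mul_mem hj hy' hz1
    refine k1 ![0, 0, 0] (w * u) (hM _ hu) ?_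
    rw [Fin.sum_univ_three]
    simp only [Matrix.cons_val_zero, Matrix.cons_val_one, Matrix.cons_val]
    have hwj' : w ^ j ∈ nonZeroDivisors R := pow_mem hreg j
    have hc : w ^ j * (z1 - w * u) = 0 := by
      linear_combination z1 * e - w * hu2
    have := (mem_nonZeroDivisors_iff.mp hwj').1 _ hc
    linear_combination this
  exact ⟨m0, m1, m2, m3⟩

end

end Pool.Agent.EA7.H91
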