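import Mathlib
import Pool.Agent.Lib.MP_ea7a64_al_h91.AlgPart
import Pool.Agent.Lib.MP_ea7a64_al_h91.Indep

set_option autoImplicit false

open IsLocalRing

namespace Pool.Agent.EA7.H91

section

variable {R : Type} [CommRing R]

/-- The module `R + R a + w B`. -/
def W {B : Type} [CommRing B] [Algebra R B] (w : R) (a : B) : Submodule R B where
  carrier := {x | ∃ r s : R, ∃ y : B, x = r • (1 : B) + s • a + w • y}
  add_mem' := by
    rintro x x' ⟨r, s, y, rfl⟩ ⟨r', s', y', rfl⟩
    refine ⟨r + r', s + s', y + y', ?_⟩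
    simp only [add_smul, smul_add]
    abel
  zero_mem' := ⟨0, 0, 0, by simp⟩
  smul_mem' := by
    rintro c x ⟨r, s, y, rfl⟩
    refine ⟨c * r, c * s, c • y, ?_⟩
    simp only [smul_add, mul_smul, smul_comm w c]

lemma one_mem_W {B : Type} [CommRing B] [Algebra R B] (w : R) (a : B) : (1 : B) ∈ W w a :=
  ⟨1, 0, 0, by simp⟩

lemma self_mem_W {B : Type} [CommRing B] [Algebra R B] (w : R) (a : B) : a ∈ W w a :=
  ⟨0, 1, 0, by simp⟩

/-- isomorphisms between the modules `W` are multiplications -/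
lemma iso_mul {B : Type} [CommRing B] [Algebra R B] {w : R} {j : ℕ}
    (hreg : ∀ x : B, w • x = 0 → x = 0)
    (hfrac : ∀ x : B, ∃ r : R, (w ^ j) • x = r • (1 : B))
    (a b : B) (f : W w a ≃ₗ[R] W w b) :
    ∃ c z : B, c ∈ W w b ∧ c * a ∈ W w b ∧ c * z = 1 := by
  have hregj : ∀ (i : ℕ) (x : B), (w ^ i) • x = 0 → x = 0 := by
    intro i
    induction i with
    | zero => intro x hx; simpa using hx
    | succ i ih =>
      intro x hx
      rw [pow_succ, mul_smul] at hx
      exact hreg x (ih _ hx)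
  let e : W w a := ⟨1, one_mem_W w a⟩
  have key : ∀ z : W w a, (f z : B) = (f e : B) * (z : B) := by
    intro z
    obtain ⟨r, hr⟩ := hfrac (z : B)
    have h1 : (w ^ j) • z = r • e := by
      apply Subtype.ext
      simpa [e] using hr
    have h2 : (w ^ j) • (f z : B) = r • (f e : B) := by
      have := congrArg (fun t : W w b => (t : B)) (congrArg f h1)
      simpa only [map_smul, Submodule.coe_smul] using this
    have h3 : (w ^ j) • ((f z : B) - (f e : B) * (z : B)) = 0 := by
      rw [smul_sub, h2, ← mul_smul_comm, hr, mul_smul_comm, mul_one, sub_self]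
    exact sub_eq_zero.mp (hregj j _ h3)
  refine ⟨(f e : B), ((f.symm ⟨1, one_mem_W w b⟩ : W w a) : B), (f e).2, ?_, ?_⟩
  · have := key ⟨a, self_mem_W w a⟩
    rw [← this]
    exact (f ⟨a, self_mem_W w a⟩).2
  · rw [← key, LinearEquiv.apply_symm_apply]

end

section

variable {R : Type} [CommRing R] [IsNoetherianRing R] [IsLocalRing R]

/-- general form: `B` is a suitable overring -/
theorem dim_one_of_ring (hk : ¬ Countable (ResidueField R)) (w : R) (j : ℕ)
    (B : Type) [CommRing B] [Nontrivial B] [Algebra R B] [Module.Finite R B]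
    (hreg : ∀ x : B, w • x = 0 → x = 0)
    (hfrac : ∀ x : B, ∃ r : R, (w ^ j) • x = r • (1 : B))
    (hm : ∀ r ∈ maximalIdeal R, ∃ y : B, r • (1 : B) = w • y)
    (b1 b2 b3 : B)
    (hind : ∀ r0 r1 r2 r3 : R, ∀ y : B,
      r0 • (1 : B) + r1 • b1 + r2 • b2 + r3 • b3 = w • y →
        r0 ∈ maximalIdeal R ∧ r1 ∈ maximalIdeal R ∧ r2 ∈ maximalIdeal R ∧ r3 ∈ maximalIdeal R)
    (g : ℕ → ModuleCat.{0} R)
    (hg : ∀ M : ModuleCat.{0} R, Module.Finite R M → Nontrivial M → IsSMulRegular M w →
      ∃ n, Nonempty (M ≃ₗ[R] g n)) : False := by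
  -- indices
  have hW : ∀ a : B, ∃ n, Nonempty (W w a ≃ₗ[R] g n) := by
    intro a
    refine hg (ModuleCat.of R (W w a)) ?_ ?_ ?_
    · have : IsNoetherian R B := isNoetherian_of_isNoetherianRing_of_finite R B
      change Module.Finite R (W w a)
      infer_instance
    · change Nontrivial (W w a)
      refine ⟨⟨⟨1, one_mem_W w a⟩, 0, ?_⟩⟩
      intro h
      exact one_ne_zero (congrArg (fun t : W w a => (t : B)) h)
    · intro x y hxy
      have hxy' : w • (x : W w a) = w • (y : W w a) := hxy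
      have h1 : w • ((x : W w a) - (y : W w a) : W w a) = 0 := by
        rw [smul_sub, hxy', sub_self]
      have h2 : w • (((x : W w a) - (y : W w a) : W w a) : B) = 0 := by
        rw [← Submodule.coe_smul, h1, Submodule.coe_zero]
      have h3 := hreg _ h2
      exact sub_eq_zero.mp (Subtype.ext h3 : ((x : W w a) - (y : W w a) : W w a) = 0)
  choose N hN using hW
  -- the quotient algebra
  let I : Ideal B := Ideal.span {algebraMap R B w}
  let A : Type := B ⧸ I
  let π : B →+* A := Ideal.Quotient.mk I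
  have hπw : ∀ y : B, π (w • y) = 0 := by
    intro y
    apply Ideal.Quotient.eq_zero_iff_mem.mpr
    rw [Algebra.smul_def, mul_comm]
    exact Ideal.mul_mem_left _ _ (Ideal.mem_span_singleton_self _)
  have hπ0 : ∀ x : B, π x = 0 → ∃ y : B, x = w • y := by
    intro x hx
    have := Ideal.Quotient.eq_zero_iff_mem.mp hx
    obtain ⟨y, hy⟩ := Ideal.mem_span_singleton'.mp this
    exact ⟨y, by rw [Algebra.smul_def, mul_comm, hy]⟩
  have hker : ∀ r ∈ maximalIdeal R, (π.comp (algebraMap R B)) r = 0 := by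
    intro r hr
    obtain ⟨y, hy⟩ := hm r hr
    rw [RingHom.comp_apply, Algebra.algebraMap_eq_smul_one, hy, hπw]
  let G : ResidueField R →+* A := Ideal.Quotient.lift (maximalIdeal R) (π.comp (algebraMap R B)) hker
  let _ : Algebra (ResidueField R) A := G.toAlgebra
  have hsm : ∀ (r : R) (x : A), (residue R r) • x = π (algebraMap R B r) * x := by
    intro r x
    rfl
  have hsm' : ∀ (r : R) (x : B), π (r • x) = (residue R r) • π x := by
    intro r x
    rw [hsm, Algebra.smul_def, map_mul]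
  have hres : ∀ p : ResidueField R, ∃ r : R, residue R r = p := residue_surjective
  let lift : A → B := Function.surjInv Ideal.Quotient.mk_surjective
  have hlift : ∀ α : A, π (lift α) = α := Function.surjInv_eq Ideal.Quotient.mk_surjective
  have hWπ : ∀ (b x : B), x ∈ W w b →
      ∃ p q : ResidueField R, π x = p • (1 : A) + q • π b := by
    rintro b x ⟨r, s, y, rfl⟩
    refine ⟨residue R r, residue R s, ?_⟩
    rw [map_add, map_add, hπw, add_zero, hsm', hsm', map_one]
  refine alg_part (k := ResidueField R) (A := A) hk (fun α => N (lift α)) ?_ (π b1) (π b2) (π b3) ?_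
  · intro α β hαβ
    have e1 := hN (lift α)
    have e2 := hN (lift β)
    have hαβ' : N (lift α) = N (lift β) := hαβ
    rw [hαβ'] at e1
    obtain ⟨e1⟩ := e1
    obtain ⟨e2⟩ := e2
    obtain ⟨c, z, hc, hca, hcz⟩ := iso_mul hreg hfrac (lift α) (lift β) (e1.trans e2.symm)
    refine ⟨π c, ?_, ?_, ?_⟩
    · exact IsUnit.of_mul_eq_one (π z) (by rw [← map_mul, hcz, map_one])
    · have := hWπ _ _ hc
      rwa [hlift] at this
    · have := hWπ _ _ hca
      rwa [hlift, map_mul, hlift] at this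
  · intro p q r s h
    obtain ⟨p, rfl⟩ := hres p
    obtain ⟨q, rfl⟩ := hres q
    obtain ⟨r, rfl⟩ := hres r
    obtain ⟨s, rfl⟩ := hres s
    have h1 : π (p • (1 : B) + q • b1 + r • b2 + s • b3) = 0 := by
      rw [map_add, map_add, map_add, hsm', hsm', hsm', hsm', map_one]
      exact h
    obtain ⟨y, hy⟩ := hπ0 _ h1
    obtain ⟨h2, h3, h4, h5⟩ := hind p q r s y hy
    exact ⟨(residue_eq_zero_iff p).mpr h2, (residue_eq_zero_iff q).mpr h3,
      (residue_eq_zero_iff r).mpr h4, (residue_eq_zero_iff s).mpr h5⟩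

/-- Task L (dimension one). -/
theorem dim_one
    (hk : ¬ Countable (ResidueField R)) (w : R) (hw : w ∈ maximalIdeal R)
    (hreg : w ∈ nonZeroDivisors R) (j : ℕ)
    (hj : maximalIdeal R ^ (j + 1) = Ideal.span {w} * maximalIdeal R ^ j)
    (hsq : ¬ maximalIdeal R ^ 2 ≤ Ideal.span {w})
    (hgen : ∀ x y : R, maximalIdeal R ≠ Ideal.span {x, y})
    (g : ℕ → ModuleCat.{0} R)
    (hg : ∀ M : ModuleCat.{0} R, Module.Finite R M → Nontrivial M → IsSMulRegular M w →
      ∃ n, Nonempty (M ≃ₗ[R] g n)) : False := by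
  let Q := Localization.Away w
  have hu : IsUnit (algebraMap R Q w) := IsLocalization.Away.algebraMap_isUnit w
  have huj : IsUnit (algebraMap R Q (w ^ j)) := by rw [map_pow]; exact hu.pow j
  have hinj : Function.Injective (algebraMap R Q) :=
    IsLocalization.injective Q (M := Submonoid.powers w) (Submonoid.powers_le.mpr hreg)
  have hwj : w ^ j ∈ maximalIdeal R ^ j := Ideal.pow_mem_pow hw j
  let B : Subalgebra R Q :=
    { carrier := {q | ∃ z ∈ maximalIdeal R ^ j, algebraMap R Q (w ^ j) * q = algebraMap R Q z}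
      mul_mem' := by
        rintro q q' ⟨z, hz, e⟩ ⟨z', hz', e'⟩
        obtain ⟨u, hu, hu2⟩ := mul_mem hj hz hz'
        refine ⟨u, hu, huj.mul_left_cancel ?_⟩
        rw [← map_mul, hu2, map_mul, ← e, ← e']
        ring
      add_mem' := by
        rintro q q' ⟨z, hz, e⟩ ⟨z', hz', e'⟩
        exact ⟨z + z', Ideal.add_mem _ hz hz', by rw [mul_add, e, e', map_add]⟩
      algebraMap_mem' := by
        intro r
        exact ⟨w ^ j * r, Ideal.mul_mem_right _ _ hwj, by rw [map_mul]⟩ }
  have hB : ∀ q : Q, q ∈ B ↔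
      ∃ z ∈ maximalIdeal R ^ j, algebraMap R Q (w ^ j) * q = algebraMap R Q z := fun q => Iff.rfl
  have hcoe : ∀ (r : R) (x : B), ((r • x : B) : Q) = algebraMap R Q r * (x : Q) :=
    fun r x => by rw [Subalgebra.coe_smul, Algebra.smul_def]
  have hone : ((1 : B) : Q) = 1 := rfl
  -- fractions
  have hfr : ∀ z ∈ maximalIdeal R ^ j, ∃ b : B, algebraMap R Q (w ^ j) * (b : Q) =
      algebraMap R Q z := by
    intro z hz
    have e : algebraMap R Q (w ^ j) * ((huj.unit⁻¹ : Qˣ) * algebraMap R Q z) = algebraMap R Q z := by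
      rw [← mul_assoc, IsUnit.mul_val_inv, one_mul]
    exact ⟨⟨(huj.unit⁻¹ : Qˣ) * algebraMap R Q z, z, hz, e⟩, e⟩
  have hregB : ∀ x : B, w • x = 0 → x = 0 := by
    intro x hx
    apply Subtype.ext
    have h1 : algebraMap R Q w * (x : Q) = 0 := by
      rw [← hcoe, hx]; rfl
    exact hu.mul_left_cancel (by rw [h1]; simp)
  have hfin : Module.Finite R B := by
    let ψ : (maximalIdeal R ^ j : Ideal R) →ₗ[R] B :=
      { toFun := fun z => ⟨(huj.unit⁻¹ : Qˣ) * algebraMap R Q z, z, z.2, by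
          rw [← mul_assoc, IsUnit.mul_val_inv, one_mul]⟩
        map_add' := by
          intro z z'
          apply Subtype.ext
          simp only [Submodule.coe_add, map_add, mul_add, Subalgebra.coe_add]
        map_smul' := by
          intro r z
          apply Subtype.ext
          rw [RingHom.id_apply, hcoe]
          simp only [Submodule.coe_smul, smul_eq_mul, map_mul]
          ring }
    apply Module.Finite.of_surjective ψ
    rintro ⟨q, z, hz, e⟩
    refine ⟨⟨z, hz⟩, ?_⟩
    apply Subtype.ext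
    change (huj.unit⁻¹ : Qˣ) * algebraMap R Q z = q
    rw [← e, ← mul_assoc, IsUnit.val_inv_mul, one_mul]
  have : Nontrivial B := by
    refine ⟨⟨1, 0, ?_⟩⟩
    intro h
    have h1 : (1 : Q) = 0 := congrArg (fun t : B => (t : Q)) h
    have h2 : algebraMap R Q 1 = algebraMap R Q 0 := by rw [map_one, map_zero, h1]
    exact one_ne_zero (hinj h2)
  obtain ⟨z1, hz1, z2, hz2, z3, hz3, hz⟩ := exists_indep hw hreg j hj hsq hgen
  obtain ⟨b1, hb1⟩ := hfr z1 hz1
  obtain ⟨b2, hb2⟩ := hfr z2 hz2
  obtain ⟨b3, hb3⟩ := hfr z3 hz3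
  refine dim_one_of_ring hk w j B hregB ?_ ?_ b1 b2 b3 ?_ g hg
  · rintro ⟨q, z, hz, e⟩
    refine ⟨z, Subtype.ext ?_⟩
    rw [hcoe, hcoe, hone, mul_one]
    exact e
  · intro r hr
    have h : w ^ j * r ∈ maximalIdeal R ^ (j + 1) := by
      rw [pow_succ]; exact Ideal.mul_mem_mul hwj hr
    rw [hj, Ideal.mem_span_singleton_mul] at h
    obtain ⟨z, hz, hz2⟩ := h
    obtain ⟨y, hy⟩ := hfr z hz
    refine ⟨y, Subtype.ext (huj.mul_left_cancel ?_)⟩
    rw [hcoe, hcoe, hone, mul_one, ← map_mul, ← hz2, map_mul, ← hy]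
    ring
  · intro r0 r1 r2 r3 y hy
    obtain ⟨u, hu, hu2⟩ := y.2
    apply hz r0 r1 r2 r3 u hu
    apply hinj
    have h1 : algebraMap R Q r0 + algebraMap R Q r1 * (b1 : Q) + algebraMap R Q r2 * (b2 : Q) +
        algebraMap R Q r3 * (b3 : Q) = algebraMap R Q w * (y : Q) := by
      have := congrArg (fun t : B => (t : Q)) hy
      simp only [Subalgebra.coe_add] at this
      rw [hcoe, hcoe, hcoe, hcoe, hcoe, hone, mul_one] at this
      exact this
    simp only [map_add, map_mul]
    rw [← hb1, ← hb2, ← hb3, ← hu2]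
    linear_combination (algebraMap R Q (w ^ j)) * h1

end

end Pool.Agent.EA7.H91
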