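import Pool.Agent.Lib.MP_ea7a64_al_h50.Vdef

/-!
# Dimension-theoretic inputs (Tasks D1, D2, D3, D4)
-/

set_option autoImplicit false
open IsLocalRing RingTheory.Sequence

namespace EA7

namespace H91

theorem artinian_quot_of_forall {R : Type} [CommRing R] [IsNoetherianRing R] [IsLocalRing R]
    (I : Ideal R) (h : ∀ q : Ideal R, q.IsPrime → I ≤ q → q = maximalIdeal R) :
    IsArtinianRing (R ⧸ I) := by
  rw [isArtinianRing_iff_krullDimLE_zero, Ring.krullDimLE_zero_iff]
  intro q hq
  have h1 : (q.comap (Ideal.Quotient.mk I)) = maximalIdeal R := by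
    apply h
    · exact Ideal.comap_isPrime _ _
    · intro x hx
      rw [Ideal.mem_comap, Ideal.Quotient.eq_zero_iff_mem.2 hx]
      exact q.zero_mem
  have h2 : q = (maximalIdeal R).map (Ideal.Quotient.mk I) := by
    rw [← h1, Ideal.map_comap_of_surjective _ Ideal.Quotient.mk_surjective]
  have h3 : q ≠ ⊤ := hq.ne_top
  rw [h2] at h3 ⊢
  rcases Ideal.map_eq_top_or_isMaximal_of_surjective (Ideal.Quotient.mk I)
    Ideal.Quotient.mk_surjective (maximalIdeal.isMaximal R) with h4 | h4
  · exact absurd h4 h3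
  · exact h4

end H91

/-- Task D1. -/
theorem artinian_quot {R : Type} [CommRing R] [IsNoetherianRing R] [IsLocalRing R] (rs : List R)
    (hm : ∀ r ∈ rs, r ∈ maximalIdeal R) (hR : IsWeaklyRegular R rs)
    (hd : (rs.length : WithBot ℕ∞) = ringKrullDim R) : IsArtinianRing (R ⧸ Ideal.ofList rs) := by
  have hle : Ideal.ofList rs ≤ maximalIdeal R := Ideal.span_le.2 hm
  have hreg : IsRegular R rs := by
    refine ⟨hR, ?_⟩
    intro h
    have h1 : (1 : R) ∈ Ideal.ofList rs := by
      have : (1 : R) ∈ (Ideal.ofList rs • ⊤ : Submodule R R) := by rw [← h]; trivial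
      simpa using this
    exact (Ideal.ne_top_iff_one _).1 (maximalIdeal.isMaximal R).ne_top (hle h1)
  have h1 := ringKrullDim_add_length_eq_ringKrullDim_of_isRegular rs hreg
  rw [isArtinianRing_iff_krullDimLE_zero, Ring.krullDimLE_iff]
  rw [← hd] at h1
  generalize ringKrullDim (R ⧸ Ideal.ofList rs) = x at h1
  show x ≤ _
  induction x using WithBot.recBotCoe with
  | bot => exact bot_le
  | coe x =>
    have h4 : ((x + (rs.length : ℕ∞) : ℕ∞) : WithBot ℕ∞) = ((rs.length : ℕ∞) : WithBot ℕ∞) := by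
      exact_mod_cast h1
    have h5 := WithBot.coe_injective h4
    have h6 : x = 0 := by
      cases x with
      | top => simp at h5
      | coe x =>
        have : x + rs.length = rs.length := by exact_mod_cast h5
        have h7 : x = 0 := by omega
        rw [h7]
        rfl
    rw [h6]
    exact le_rfl

/-- Task D2. -/
theorem exists_coheight_one_prime {R : Type} [CommRing R] [IsNoetherianRing R] [IsLocalRing R]
    (hd : 2 ≤ ringKrullDim R) (x : R) (hx : x ∈ maximalIdeal R) :
    ∃ p : Ideal R, p.IsPrime ∧ x ∈ p ∧ p ≠ maximalIdeal R ∧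
      ∀ r : R, r ∈ maximalIdeal R → r ∉ p →
        IsArtinianRing ((R ⧸ p) ⧸ Ideal.span {Ideal.Quotient.mk p r}) := by
  let S : Set (Ideal R) := {p | p.IsPrime ∧ x ∈ p ∧ p ≠ maximalIdeal R}
  have hS : S.Nonempty := by
    have hle : Ideal.span {x} ≤ maximalIdeal R := (Ideal.span_singleton_le_iff_mem _).2 hx
    obtain ⟨p, hp, hpm⟩ := Ideal.exists_minimalPrimes_le hle
    have hpp : p.IsPrime := hp.1.1
    refine ⟨p, hpp, hp.1.2 (Ideal.mem_span_singleton_self x), ?_⟩
    rintro rfl
    have h1 : (maximalIdeal R).height ≤ 1 :=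
      Ideal.height_le_one_of_isPrincipal_of_mem_minimalPrimes _ _ hp
    have h2 := maximalIdeal_height_eq_ringKrullDim (R := R)
    rw [← h2] at hd
    have h3 : ((2 : ℕ∞) : WithBot ℕ∞) ≤ ((maximalIdeal R).height : WithBot ℕ∞) := hd
    rw [WithBot.coe_le_coe] at h3
    have h4 := h3.trans h1
    exact absurd h4 (by decide)
  obtain ⟨p, hpS, hmax⟩ := set_has_maximal_iff_noetherian.2 (inferInstance : IsNoetherian R R) S hS
  obtain ⟨hp, hxp, hpm⟩ := hpS
  refine ⟨p, hp, hxp, hpm, fun r hr hrp => ?_⟩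
  have : Nontrivial (R ⧸ p) := Ideal.Quotient.nontrivial_iff.2 hp.ne_top
  have hloc : IsLocalRing (R ⧸ p) :=
    IsLocalRing.of_surjective' (Ideal.Quotient.mk p) Ideal.Quotient.mk_surjective
  refine H91.artinian_quot_of_forall _ fun q hq hrq => ?_
  rw [Ideal.span_singleton_le_iff_mem] at hrq
  have h1 : q.comap (Ideal.Quotient.mk p) = maximalIdeal R := by
    by_contra hne
    have h2 : q.comap (Ideal.Quotient.mk p) ∈ S := by
      refine ⟨Ideal.comap_isPrime _ _, ?_, hne⟩
      rw [Ideal.mem_comap, Ideal.Quotient.eq_zero_iff_mem.2 hxp]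
      exact q.zero_mem
    refine hmax _ h2 (lt_of_le_of_ne ?_ ?_)
    · intro y hy
      rw [Ideal.mem_comap, Ideal.Quotient.eq_zero_iff_mem.2 hy]
      exact q.zero_mem
    · intro h3
      apply hrp
      rw [h3, Ideal.mem_comap]
      exact hrq
  have h2 : q = (maximalIdeal R).map (Ideal.Quotient.mk p) := by
    rw [← h1, Ideal.map_comap_of_surjective _ Ideal.Quotient.mk_surjective]
  have h3 : q ≠ ⊤ := hq.ne_top
  apply IsLocalRing.eq_maximalIdeal
  rw [h2] at h3 ⊢
  rcases Ideal.map_eq_top_or_isMaximal_of_surjective (Ideal.Quotient.mk p)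
    Ideal.Quotient.mk_surjective (maximalIdeal.isMaximal R) with h4 | h4
  · exact absurd h4 h3
  · exact h4

/-- Task D3. -/
theorem exists_perm {R : Type} [CommRing R] [IsNoetherianRing R] [IsLocalRing R] (rs : List R)
    (hm : ∀ r ∈ rs, r ∈ maximalIdeal R) (hR : IsWeaklyRegular R rs)
    (hd : (rs.length : WithBot ℕ∞) = ringKrullDim R) (p : Ideal R) (hp : p.IsPrime)
    (hpm : p ≠ maximalIdeal R) :
    ∃ (r : R) (rs' : List R), r ∉ p ∧ (r :: rs').Perm rs ∧ IsWeaklyRegular R (r :: rs') := by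
  have h1 : ∃ r ∈ rs, r ∉ p := by
    by_contra hcon
    push Not at hcon
    have hle : Ideal.ofList rs ≤ p := Ideal.span_le.2 hcon
    have hart := artinian_quot rs hm hR hd
    rw [isArtinianRing_iff_krullDimLE_zero, Ring.krullDimLE_zero_iff] at hart
    have h2 : (p.map (Ideal.Quotient.mk (Ideal.ofList rs))).IsPrime :=
      Ideal.map_isPrime_of_surjective Ideal.Quotient.mk_surjective (by
        rw [Ideal.mk_ker]; exact hle)
    have h3 := hart _ h2
    have h4 : (Ideal.comap (Ideal.Quotient.mk (Ideal.ofList rs))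
        (p.map (Ideal.Quotient.mk (Ideal.ofList rs)))).IsMaximal :=
      Ideal.comap_isMaximal_of_surjective _ Ideal.Quotient.mk_surjective
    rw [Ideal.comap_map_of_surjective _ Ideal.Quotient.mk_surjective] at h4
    have h5 : Ideal.comap (Ideal.Quotient.mk (Ideal.ofList rs)) ⊥ = Ideal.ofList rs := by
      rw [← RingHom.ker_eq_comap_bot, Ideal.mk_ker]
    rw [h5, sup_eq_left.2 hle] at h4
    exact hpm (IsLocalRing.eq_maximalIdeal h4)
  obtain ⟨r, hr, hrp⟩ := h1
  obtain ⟨l1, l2, rfl⟩ := List.append_of_mem hr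
  have hperm : (r :: (l1 ++ l2)).Perm (l1 ++ r :: l2) := List.perm_middle.symm
  exact ⟨r, l1 ++ l2, hrp, hperm,
    IsLocalRing.isWeaklyRegular_of_perm_of_subset_maximalIdeal hR hperm.symm hm⟩

/-- Task D4. -/
theorem NG_of_finrank {R : Type} [CommRing R] [IsNoetherianRing R] [IsLocalRing R] (d : ℕ)
    (h : d + 1 < Module.finrank (ResidueField R) (CotangentSpace R)) : NG R (d + 1) := by
  intro ys hys hle
  have h1 : maximalIdeal R = Ideal.span (Set.range ys) := by
    apply le_antisymm hle
    rw [Ideal.span_le]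
    rintro _ ⟨i, rfl⟩
    exact hys i
  rw [← IsLocalRing.spanFinrank_maximalIdeal_eq_finrank_cotangentSpace] at h
  have h2 : (maximalIdeal R).spanFinrank ≤ (Set.range ys).ncard := by
    rw [h1]
    exact Submodule.spanFinrank_span_le_ncard_of_finite (Set.finite_range ys)
  have h3 : (Set.range ys).ncard ≤ d + 1 := by
    rw [← Set.image_univ]
    refine (Set.ncard_image_le Set.finite_univ).trans ?_
    rw [Set.ncard_univ]
    simp
  omega

end EA7
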