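import Pool.Agent.Lib.MP_ea7a64_al_h50.Vdef

/-!
# Regular sequences on kernels and syzygies (Tasks R1, R2)
-/

set_option autoImplicit false
open IsLocalRing RingTheory.Sequence

namespace EA7

namespace H91

/-- `0 → A/rA → B/rB → C/rC → 0` is exact if `r` is `C`-regular. -/
theorem ses_quot {R : Type} [CommRing R] {A B C : Type} [AddCommGroup A] [Module R A]
    [AddCommGroup B] [Module R B] [AddCommGroup C] [Module R C] {ι : A →ₗ[R] B} {π : B →ₗ[R] C}
    (hs : SES ι π) (r : R) (hC : IsSMulRegular C r) :
    SES (QuotSMulTop.map r ι) (QuotSMulTop.map r π) where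
  inj := by
    have h0 : Function.Exact (0 : PUnit →ₗ[R] A) ι := by
      intro x
      constructor
      · intro hx
        refine ⟨PUnit.unit, ?_⟩
        rw [LinearMap.zero_apply]
        exact (hs.inj (by rw [hx, map_zero])).symm
      · rintro ⟨y, rfl⟩
        simp
    have h1 := QuotSMulTop.map_first_exact_on_four_term_exact_of_isSMulRegular_last
      h0 hs.exact hC
    rw [injective_iff_map_eq_zero]
    intro x hx
    obtain ⟨y, hy⟩ := (h1 x).1 hx
    rw [← hy]
    simp [map_zero]
  surj := QuotSMulTop.map_surjective r hs.surj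
  exact := QuotSMulTop.map_exact r hs.exact hs.surj

end H91

/-- Task R1. -/
theorem reg_ses {R : Type} [CommRing R] {A B C : Type} [AddCommGroup A] [Module R A]
    [AddCommGroup B] [Module R B] [AddCommGroup C] [Module R C] {ι : A →ₗ[R] B} {π : B →ₗ[R] C}
    (hs : SES ι π) (rs l : List R) (hl : l.length ≤ 1) (hC : IsWeaklyRegular C rs)
    (hB : IsWeaklyRegular B (rs ++ l)) : IsWeaklyRegular A (rs ++ l) := by
  induction rs generalizing A B C with
  | nil =>
    rw [List.nil_append] at hB ⊢
    match l, hl with
    | [], _ => exact IsWeaklyRegular.nil R A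
    | [r], _ =>
      rw [isWeaklyRegular_singleton_iff] at hB ⊢
      exact hB.of_injective ι hs.inj
  | cons r rs ih =>
    rw [List.cons_append, isWeaklyRegular_cons_iff] at hB ⊢
    rw [isWeaklyRegular_cons_iff] at hC
    exact ⟨hB.1.of_injective ι hs.inj, ih (H91.ses_quot hs r hC.1) hC.2 hB.2⟩

namespace H91

theorem mem_smul_top_pi {R : Type} [CommRing R] {M : Type} [AddCommGroup M] [Module R M]
    {n : ℕ} (I : Ideal R) (x : Fin n → M) :
    x ∈ (I • ⊤ : Submodule R (Fin n → M)) ↔ ∀ i, x i ∈ (I • ⊤ : Submodule R M) := by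
  constructor
  · intro hx i
    have h1 : LinearMap.proj (R := R) (φ := fun _ : Fin n => M) i x ∈
        Submodule.map (LinearMap.proj (R := R) (φ := fun _ : Fin n => M) i)
          (I • ⊤ : Submodule R (Fin n → M)) := Submodule.mem_map_of_mem hx
    rw [Submodule.map_smul''] at h1
    exact Submodule.smul_mono le_rfl le_top h1
  · intro h
    have h1 : x = ∑ i, LinearMap.single R (fun _ : Fin n => M) i (x i) := by
      classical
      funext j
      simp [Finset.sum_apply, Pi.single_apply]
    rw [h1]
    refine Submodule.sum_mem _ fun i _ => ?_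
    have h2 : LinearMap.single R (fun _ : Fin n => M) i (x i) ∈
        Submodule.map (LinearMap.single R (fun _ : Fin n => M) i) (I • ⊤ : Submodule R M) :=
      Submodule.mem_map_of_mem (h i)
    rw [Submodule.map_smul''] at h2
    exact Submodule.smul_mono le_rfl le_top h2

/-- a weakly regular sequence on `M` is weakly regular on `Mⁿ`. -/
theorem weaklyRegular_pi {R : Type} [CommRing R] {M : Type} [AddCommGroup M] [Module R M]
    {n : ℕ} {rs : List R} (h : IsWeaklyRegular M rs) : IsWeaklyRegular (Fin n → M) rs := by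
  refine ⟨fun i hi => ?_⟩
  have h1 := h.regular_mod_prev i hi
  rw [isSMulRegular_quotient_iff_mem_of_smul_mem] at h1 ⊢
  intro x hx
  rw [mem_smul_top_pi] at hx ⊢
  exact fun j => h1 (x j) (hx j)

theorem weaklyRegular_take {R : Type} [CommRing R] {M : Type} [AddCommGroup M] [Module R M]
    {rs : List R} (h : IsWeaklyRegular M rs) (n : ℕ) : IsWeaklyRegular M (rs.take n) := by
  rw [← List.take_append_drop n rs, isWeaklyRegular_append_iff] at h
  exact h.1

end H91

/-- Task R2. -/
theorem Sy_regular {R : Type} [CommRing R] [IsNoetherianRing R] [IsLocalRing R] (N : FM R)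
    (rs : List R) (hR : IsWeaklyRegular R rs) (n : ℕ) (hN : IsWeaklyRegular N.C (rs.take n))
    (i : ℕ) : IsWeaklyRegular (Sy N i).C (rs.take (n + i)) := by
  induction i with
  | zero => exact hN
  | succ i ih =>
    rw [Sy_succ]
    have h1 : rs.take (n + (i + 1)) = rs.take (n + i) ++ (rs.drop (n + i)).take 1 := by
      rw [← add_assoc, List.take_add]
    rw [h1]
    refine reg_ses (ses (Sy N i)) _ _ ?_ ih ?_
    · simp
    · rw [← h1]
      exact H91.weaklyRegular_pi (H91.weaklyRegular_take hR _)

end EA7
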