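import Pool.Agent.Lib.MP_ea7a64_al_h50.Vdef
import Pool.Agent.Lib.MP_ea7a64_al_h64.Cover

/-!
# Dimension zero (Task F2)
-/

set_option autoImplicit false
set_option linter.unusedSectionVars false
open IsLocalRing RingTheory.Sequence

namespace EA7

variable {R : Type} [CommRing R] [IsNoetherianRing R] [IsLocalRing R]

theorem H91.indec_cyclic (a : R) (ha : a ∈ maximalIdeal R)
    (N₁ N₂ : Submodule R (R ⧸ Ideal.span {a})) (h : IsCompl N₁ N₂) : N₁ = ⊥ ∨ N₂ = ⊥ := by
  have key : ∀ (N N' : Submodule R (R ⧸ Ideal.span {a})), IsCompl N N' → ∀ r : R,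
      IsUnit r → Ideal.Quotient.mk (Ideal.span {a}) r ∈ N → N' = ⊥ := by
    intro N N' hN r hr hmem
    have hN' : N = ⊤ := by
      rw [eq_top_iff]
      intro x _
      obtain ⟨x, rfl⟩ := Ideal.Quotient.mk_surjective x
      obtain ⟨u, rfl⟩ := hr
      have : Ideal.Quotient.mk (Ideal.span {a}) x =
          (x * (↑u⁻¹ : R)) • Ideal.Quotient.mk (Ideal.span {a}) (u : R) := by
        rw [← Ideal.Quotient.mkₐ_eq_mk R, ← map_smul]
        congr 1
        simp [smul_eq_mul, mul_assoc]
      rw [this]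
      exact N.smul_mem _ hmem
    have := hN.disjoint
    rw [hN', disjoint_iff, top_inf_eq] at this
    exact this
  have h1 : (1 : R ⧸ Ideal.span {a}) ∈ N₁ ⊔ N₂ := by
    rw [h.sup_eq_top]
    trivial
  obtain ⟨y, hy, z, hz, hyz⟩ := Submodule.mem_sup.1 h1
  obtain ⟨y, rfl⟩ := Ideal.Quotient.mk_surjective y
  obtain ⟨z, rfl⟩ := Ideal.Quotient.mk_surjective z
  have h2 : Ideal.Quotient.mk (Ideal.span {a}) (y + z) =
      Ideal.Quotient.mk (Ideal.span {a}) 1 := by
    rw [map_add, hyz, map_one]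
  rw [Ideal.Quotient.eq, Ideal.mem_span_singleton] at h2
  obtain ⟨c, hc⟩ := h2
  have h3 : ¬ (y ∈ maximalIdeal R ∧ z ∈ maximalIdeal R) := by
    rintro ⟨h4, h5⟩
    have h6 : (1 : R) = (y + z) - a * c := by rw [← hc]; ring
    have h7 : (1 : R) ∈ maximalIdeal R := by
      rw [h6]
      exact Ideal.sub_mem _ (Ideal.add_mem _ h4 h5) (Ideal.mul_mem_right _ _ ha)
    exact (Ideal.ne_top_iff_one _).1 (maximalIdeal.isMaximal R).ne_top h7
  by_cases hyu : IsUnit y
  · right
    exact key N₁ N₂ h y hyu hy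
  · left
    have hzu : IsUnit z := by
      by_contra hcon
      exact h3 ⟨(mem_maximalIdeal _).2 hyu, (mem_maximalIdeal _).2 hcon⟩
    exact key N₂ N₁ h.symm z hzu hz

/-- Task F2 (d = 0). -/
theorem dim_zero (hk : ¬ Countable (ResidueField R))
    (hprin : ∀ a : R, maximalIdeal R ≠ Ideal.span {a}) (f : ℕ → ModuleCat.{0} R)
    (hf : ∀ M : ModuleCat.{0} R, Module.Finite R M →
      (Nontrivial M ∧ ∀ N₁ N₂ : Submodule R M, IsCompl N₁ N₂ → N₁ = ⊥ ∨ N₂ = ⊥) →
      ∃ n, Nonempty (M ≃ₗ[R] f n)) : False := by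
  classical
  have hbot : ¬ maximalIdeal R ≤ ⊥ := by
    intro h
    apply hprin 0
    rw [le_bot_iff.1 h, Ideal.span_singleton_eq_bot.2 rfl]
  refine not_countable_cover hk
    (fun n => if maximalIdeal R ≤ Module.annihilator R (f n) then ⊥
      else Module.annihilator R (f n)) ?_ ?_
  · intro n
    by_cases h : maximalIdeal R ≤ Module.annihilator R (f n)
    · rw [if_pos h]
      exact hbot
    · rw [if_neg h]
      exact h
  · intro x hx
    have hne : Ideal.span {x} ≠ ⊤ := by
      intro h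
      have : (Ideal.span {x} : Ideal R) ≤ maximalIdeal R :=
        (Ideal.span_singleton_le_iff_mem _).2 hx
      rw [h] at this
      exact (maximalIdeal.isMaximal R).ne_top (top_le_iff.1 this)
    obtain ⟨n, ⟨e⟩⟩ := hf (ModuleCat.of R (R ⧸ Ideal.span {x}))
      (inferInstanceAs (Module.Finite R (R ⧸ Ideal.span {x})))
      ⟨Ideal.Quotient.nontrivial_iff.2 hne, fun N₁ N₂ h => H91.indec_cyclic x hx N₁ N₂ h⟩
    refine ⟨n, ?_⟩
    have h1 : Module.annihilator R (f n) = Ideal.span {x} := by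
      rw [← e.annihilator_eq]
      exact Ideal.annihilator_quotient
    have h2 : ¬ maximalIdeal R ≤ Module.annihilator R (f n) := by
      rw [h1]
      intro h3
      exact hprin x (le_antisymm h3 ((Ideal.span_singleton_le_iff_mem _).2 hx))
    show x ∈ (if maximalIdeal R ≤ Module.annihilator R (f n) then ⊥
      else Module.annihilator R (f n))
    rw [if_neg h2, h1]
    exact Ideal.mem_span_singleton_self x

end EA7
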